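import Pool.Agent.Helper11.KS.Sheet
import Pool.Agent.Helper73.NH.TREE
import Pool.Agent.Helper63.NH.TreeG
open MeasureTheory Metric Set Filter Topology Real
open scoped ENNReal NNReal

/-!
# Rows GA and GB of KS (MP_665203_co): the gadgets
-/

namespace H11ST
namespace KS
namespace Ga74
open NH

theorem tr3 {σ : ℝ} (hσ : σ = 1 ∨ σ = -1) :
    Real.cos (σ * (π / 3)) = 1 / 2 ∧ Real.sin (σ * (π / 3)) = σ * (√3 / 2) := by
  rcases hσ with rfl | rfl
  · rw [one_mul, one_mul, Real.cos_pi_div_three, Real.sin_pi_div_three]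
    exact ⟨rfl, rfl⟩
  · rw [neg_one_mul, neg_one_mul, Real.cos_neg, Real.sin_neg, Real.cos_pi_div_three,
      Real.sin_pi_div_three]
    exact ⟨rfl, rfl⟩

theorem tr6 {σ : ℝ} (hσ : σ = 1 ∨ σ = -1) :
    Real.cos (σ * (π / 6)) = √3 / 2 ∧ Real.sin (σ * (π / 6)) = σ * (1 / 2) := by
  rcases hσ with rfl | rfl
  · rw [one_mul, one_mul, Real.cos_pi_div_six, Real.sin_pi_div_six]
    exact ⟨rfl, rfl⟩
  · rw [neg_one_mul, neg_one_mul, Real.cos_neg, Real.sin_neg, Real.cos_pi_div_six,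
      Real.sin_pi_div_six]
    exact ⟨rfl, rfl⟩

theorem tr23 {σ : ℝ} (hσ : σ = 1 ∨ σ = -1) :
    Real.cos (σ * (2 * π / 3)) = -(1 / 2) ∧ Real.sin (σ * (2 * π / 3)) = σ * (√3 / 2) := by
  rcases hσ with rfl | rfl
  · rw [one_mul, one_mul, cos120, sin120]
    exact ⟨rfl, rfl⟩
  · rw [neg_one_mul, neg_one_mul, Real.cos_neg, Real.sin_neg, cos120, sin120]
    exact ⟨rfl, rfl⟩

theorem ev0 (θ : ℝ) : (ev θ) 0 = Real.cos θ := rfl
theorem ev1 (θ : ℝ) : (ev θ) 1 = Real.sin θ := rfl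

/-- `ev β = P + M` -/
theorem evB (β : ℝ) {σ : ℝ} (hσ : σ = 1 ∨ σ = -1) :
    ev β = ev (β + σ * (π / 3)) + ev (β - σ * (π / 3)) := by
  obtain ⟨hc, -⟩ := tr3 hσ
  refine PU.ext2 ?_ ?_
  · rw [PiLp.add_apply, ev0, ev0, ev0, Real.cos_add, Real.cos_sub, hc]
    ring
  · rw [PiLp.add_apply, ev1, ev1, ev1, Real.sin_add, Real.sin_sub, hc]
    ring

/-- `√3 d' = P + 2 M` -/
theorem evD (β : ℝ) {σ : ℝ} (hσ : σ = 1 ∨ σ = -1) :
    √3 • ev (β - σ * (π / 6)) = ev (β + σ * (π / 3)) + (2 : ℝ) • ev (β - σ * (π / 3)) := by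
  obtain ⟨hc, hs⟩ := tr3 hσ
  obtain ⟨hc6, hs6⟩ := tr6 hσ
  have h3 := PU.s3
  refine PU.ext2 ?_ ?_
  · rw [PiLp.add_apply, PiLp.smul_apply, PiLp.smul_apply, ev0, ev0, ev0, Real.cos_add,
      Real.cos_sub, Real.cos_sub, hc, hs, hc6, hs6, smul_eq_mul, smul_eq_mul]
    linear_combination (Real.cos β / 2) * h3
  · rw [PiLp.add_apply, PiLp.smul_apply, PiLp.smul_apply, ev1, ev1, ev1, Real.sin_add,
      Real.sin_sub, Real.sin_sub, hc, hs, hc6, hs6, smul_eq_mul, smul_eq_mul]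
    linear_combination (Real.sin β / 2) * h3

/-- `ev (β + σ 120°) = - M` -/
theorem evQ (β : ℝ) {σ : ℝ} (hσ : σ = 1 ∨ σ = -1) :
    ev (β + σ * (2 * π / 3)) = -ev (β - σ * (π / 3)) := by
  obtain ⟨hc, hs⟩ := tr3 hσ
  obtain ⟨hc2, hs2⟩ := tr23 hσ
  refine PU.ext2 ?_ ?_
  · rw [PiLp.neg_apply, ev0, ev0, Real.cos_add, Real.cos_sub, hc, hs, hc2, hs2]
    ring
  · rw [PiLp.neg_apply, ev1, ev1, Real.sin_add, Real.sin_sub, hc, hs, hc2, hs2]
    ring

theorem inPM (β : ℝ) {σ : ℝ} (hσ : σ = 1 ∨ σ = -1) :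
    inner ℝ (ev (β + σ * (π / 3))) (ev (β - σ * (π / 3))) = -(1 / 2 : ℝ) := by
  rw [inner_ev, show β + σ * (π / 3) - (β - σ * (π / 3)) = σ * (2 * π / 3) by ring]
  exact (tr23 hσ).1

/-- two unit vectors at the angle `120°` -/
structure PM (P M : E 2) : Prop where
  p : ‖P‖ = 1
  m : ‖M‖ = 1
  o : inner ℝ P M = -(1 / 2 : ℝ)

theorem pm (β : ℝ) {σ : ℝ} (hσ : σ = 1 ∨ σ = -1) :
    PM (ev (β + σ * (π / 3))) (ev (β - σ * (π / 3))) :=
  ⟨norm_ev _, norm_ev _, inPM β hσ⟩

variable {P M : E 2}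

theorem PM.nsq (h : PM P M) (a b : ℝ) : ‖a • P + b • M‖ ^ 2 = a ^ 2 + b ^ 2 - a * b := by
  rw [norm_add_sq_real, norm_smul, norm_smul, real_inner_smul_left, real_inner_smul_right, h.p, h.m,
    h.o, mul_one, mul_one, Real.norm_eq_abs, Real.norm_eq_abs, sq_abs, sq_abs]
  ring

theorem PM.ind (h : PM P M) {a b : ℝ} (h0 : a • P + b • M = 0) : a = 0 ∧ b = 0 := by
  have h1 := h.nsq a b
  rw [h0, norm_zero] at h1
  have h2 : (a - b / 2) ^ 2 + 3 / 4 * b ^ 2 = 0 := by linear_combination -h1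
  have h3 : b ^ 2 = 0 := by nlinarith [sq_nonneg (a - b / 2), sq_nonneg b]
  have h4 : b = 0 := by simpa using h3
  rw [h4] at h2
  have h5 : a ^ 2 = 0 := by linear_combination h2
  exact ⟨by simpa using h5, h4⟩

/-- point with the coordinates `a, b` -/
def pt (P M v : E 2) (a b : ℝ) : E 2 := v + (a • P + b • M)

theorem PM.inj (h : PM P M) {v : E 2} {a b a' b' : ℝ} (h0 : pt P M v a b = pt P M v a' b') :
    a = a' ∧ b = b' := by
  have h1 : (a - a') • P + (b - b') • M = 0 := by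
    have h2 : a • P + b • M = a' • P + b' • M := add_left_cancel h0
    rw [sub_smul, sub_smul]
    calc a • P - a' • P + (b • M - b' • M) = (a • P + b • M) - (a' • P + b' • M) := by abel
      _ = 0 := by rw [h2, sub_self]
  obtain ⟨h2, h3⟩ := h.ind h1
  exact ⟨by linarith, by linarith⟩

theorem PM.dst (h : PM P M) {v : E 2} {a b a' b' k : ℝ} (hk : 0 ≤ k)
    (hq : (a - a') ^ 2 + (b - b') ^ 2 - (a - a') * (b - b') = k ^ 2) :
    dist (pt P M v a b) (pt P M v a' b') = k := by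
  have h1 : pt P M v a b - pt P M v a' b' = (a - a') • P + (b - b') • M := by
    rw [pt, pt, sub_smul, sub_smul]
    abel
  rw [dist_eq_norm, h1]
  have h2 := h.nsq (a - a') (b - b')
  rw [hq] at h2
  exact (sq_eq_sq₀ (norm_nonneg _) hk).1 h2

theorem cseg (x y : E 2) : IsCompact (segment ℝ x y) := TreeG.cpt x y

theorem pseg (x y : E 2) : IsPreconnected (segment ℝ x y) := (convex_segment x y).isPreconnected

/-- the star with the centre `c` and three ends -/
theorem star {q c a b : E 2} {l : ℝ} (hq : ‖q‖ ≤ 1) (hc : ‖c‖ ≤ 1) (ha : ‖a‖ ≤ 1) (hb : ‖b‖ ≤ 1)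
    (hl : dist q c + dist c a + dist c b ≤ l) :
    IsCompact (segment ℝ q c ∪ segment ℝ c a ∪ segment ℝ c b) ∧
    IsPreconnected (segment ℝ q c ∪ segment ℝ c a ∪ segment ℝ c b) ∧
    segment ℝ q c ∪ segment ℝ c a ∪ segment ℝ c b ⊆ closedBall (0 : E 2) 1 ∧
    μH[1] (segment ℝ q c ∪ segment ℝ c a ∪ segment ℝ c b) ≤ ENNReal.ofReal l := by
  have hs : ∀ x y : E 2, ‖x‖ ≤ 1 → ‖y‖ ≤ 1 → segment ℝ x y ⊆ closedBall (0 : E 2) 1 :=
    fun x y hx hy => (convex_closedBall (0 : E 2) 1).segment_subset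
      (mem_closedBall_zero_iff.2 hx) (mem_closedBall_zero_iff.2 hy)
  refine ⟨((cseg _ _).union (cseg _ _)).union (cseg _ _), ?_, ?_, ?_⟩
  · refine IsPreconnected.union c (Or.inl (right_mem_segment ℝ _ _)) (left_mem_segment ℝ _ _) ?_
      (pseg _ _)
    exact IsPreconnected.union c (right_mem_segment ℝ _ _) (left_mem_segment ℝ _ _) (pseg _ _)
      (pseg _ _)
  · exact union_subset (union_subset (hs _ _ hq hc) (hs _ _ hc ha)) (hs _ _ hc hb)
  · calc μH[1] (segment ℝ q c ∪ segment ℝ c a ∪ segment ℝ c b)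
        ≤ μH[1] (segment ℝ q c) + μH[1] (segment ℝ c a) + μH[1] (segment ℝ c b) :=
          (measure_union_le _ _).trans (add_le_add_left (measure_union_le _ _) _)
      _ = ENNReal.ofReal (dist q c + dist c a + dist c b) := by
          rw [hausdorffMeasure_segment, hausdorffMeasure_segment, hausdorffMeasure_segment,
            edist_dist, edist_dist, edist_dist, ENNReal.ofReal_add (by positivity) dist_nonneg,
            ENNReal.ofReal_add dist_nonneg dist_nonneg]
      _ ≤ ENNReal.ofReal l := ENNReal.ofReal_le_ofReal hl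

/-! ## edges and tripods -/

variable {S : Set (E 2)} {v e : E 2} {X : ℝ}

theorem Edge.unit (h : Edge S v e X) : ‖e‖ = 1 := by
  obtain ⟨ε, hL⟩ := h.ray (X / 2) (by linarith [h.pos]) (by linarith [h.pos])
  exact hL.unit

theorem Edge.subS (h : Edge S v e X) : segment ℝ v (v + X • e) ⊆ S := by
  intro z hz
  obtain ⟨s, h0, h1, rfl⟩ := TreeG.seg h.pos.le hz
  exact (h.mem s h0 h1).1

theorem Edge.subB (h : Edge S v e X) : segment ℝ v (v + X • e) ⊆ closedBall (0 : E 2) 1 := by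
  intro z hz
  obtain ⟨s, h0, h1, rfl⟩ := TreeG.seg h.pos.le hz
  exact mem_closedBall_zero_iff.2 (h.mem s h0 h1).2

theorem Edge.endB (h : Edge S v e X) : ‖v + X • e‖ ≤ 1 := (h.mem X h.pos.le le_rfl).2

theorem Edge.loc {z : E 2} (h : Edge S v e X) (hz : z ∈ segment ℝ v (v + X • e)) (h1 : z ≠ v)
    (h2 : z ≠ v + X • e) : ∃ ε > 0, S ∩ Metric.ball z ε ⊆ segment ℝ v (v + X • e) := by
  obtain ⟨s, s0, s1, rfl⟩ := TreeG.seg h.pos.le hz
  have p0 : 0 < s := by
    refine lt_of_le_of_ne s0 ?_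
    rintro rfl
    exact h1 (by rw [zero_smul, add_zero])
  have p1 : s < X := by
    refine lt_of_le_of_ne s1 ?_
    rintro rfl
    exact h2 rfl
  obtain ⟨ε, hL⟩ := h.ray s p0 p1
  refine ⟨min ε (min s (X - s)), lt_min hL.pos (lt_min p0 (by linarith)), ?_⟩
  rintro w ⟨hw, hwb⟩
  have h3 : w ∈ S ∩ Metric.ball (v + s • e) ε := ⟨hw, ball_subset_ball (min_le_left _ _) hwb⟩
  rw [hL.eq] at h3
  obtain ⟨t, -, rfl⟩ := h3
  rw [mem_ball, gdist' hL.unit, lt_min_iff, lt_min_iff] at hwb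
  obtain ⟨-, k1, k2⟩ := hwb
  have k3 := abs_lt.1 k1
  have k4 := abs_lt.1 k2
  rw [add_assoc, ← add_smul]
  exact mem_seg (by linarith [k3.1]) (by linarith [k4.2]) h.pos

/-- the neighbourhood of a tripod point -/
theorem TriB.loc {β σ : ℝ} (hσ : σ = 1 ∨ σ = -1) (h : TriB S v β) {x y : ℝ} (hx : 0 < x)
    (hy : 0 < y) : ∃ δ > 0, ∀ z ∈ S ∩ Metric.ball v δ,
      z ∈ segment ℝ v (v + x • ev (β - σ * (π / 3))) ∨
      z ∈ segment ℝ v (v + y • ev (β + σ * (π / 3))) ∨
      ∃ s : ℝ, 0 ≤ s ∧ s < δ ∧ z = v - s • ev β := by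
  obtain ⟨u, ε, T, j, hj⟩ := h
  have hj' : u j = ev (β + π) := by rw [hj, ev_add_pi]
  obtain ⟨j1, j2, h01, h02, h12, e1, e2⟩ := tri_two T hj'
  have e1' : u j1 = ev (β - π / 3) := by
    rw [e1, show β + π + 2 * π / 3 = (β - π / 3) + 2 * π by ring, ev_two_pi]
  have e2' : u j2 = ev (β + π / 3) := by
    rw [e2]
    congr 1
    ring
  refine ⟨min ε (min x y), lt_min T.pos (lt_min hx hy), ?_⟩
  rintro z ⟨hz, hzb⟩
  have h3 : z ∈ S ∩ Metric.ball v ε := ⟨hz, ball_subset_ball (min_le_left _ _) hzb⟩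
  rw [T.eq] at h3
  obtain ⟨i, s, s0, -, rfl⟩ := h3
  rw [mem_ball, gdist' (T.norm i), abs_of_nonneg s0] at hzb
  have hzx : s ≤ x := (hzb.le.trans (min_le_right _ _)).trans (min_le_left _ _)
  have hzy : s ≤ y := (hzb.le.trans (min_le_right _ _)).trans (min_le_right _ _)
  rcases three_cases i j j1 j2 h01 h02 h12 with rfl | rfl | rfl
  · right
    right
    exact ⟨s, s0, hzb, by rw [hj, smul_neg, ← sub_eq_add_neg]⟩
  · rw [e1']
    rcases hσ with rfl | rfl
    · left
      rw [one_mul]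
      exact mem_seg s0 hzx hx
    · right
      left
      rw [neg_one_mul, ← sub_eq_add_neg]
      exact mem_seg s0 hzy hy
  · rw [e2']
    rcases hσ with rfl | rfl
    · right
      left
      rw [one_mul]
      exact mem_seg s0 hzy hy
    · left
      rw [neg_one_mul, sub_neg_eq_add]
      exact mem_seg s0 hzx hx

theorem PM.half {β σ : ℝ} (hσ : σ = 1 ∨ σ = -1) (a b : ℝ) :
    inner ℝ (pt (ev (β + σ * (π / 3))) (ev (β - σ * (π / 3))) v a b - v) (ev β) = (a + b) / 2 := by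
  obtain ⟨hc, -⟩ := tr3 hσ
  rw [pt, add_sub_cancel_left, inner_add_left, real_inner_smul_left, real_inner_smul_left, inner_ev,
    inner_ev, show β + σ * (π / 3) - β = σ * (π / 3) by ring,
    show β - σ * (π / 3) - β = -(σ * (π / 3)) by ring, Real.cos_neg, hc]
  ring

theorem qpt {β σ : ℝ} (hσ : σ = 1 ∨ σ = -1) (e l : ℝ) :
    v + e • ev β - l • ev (β - σ * (π / 6)) =
      pt (ev (β + σ * (π / 3))) (ev (β - σ * (π / 3))) v (e - l / √3) (e - 2 * l / √3) := by
  have h3 : √3 ≠ 0 := by positivity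
  have hd : ev (β - σ * (π / 6)) =
      (1 / √3) • (ev (β + σ * (π / 3)) + (2 : ℝ) • ev (β - σ * (π / 3))) := by
    rw [← evD β hσ, smul_smul, one_div, inv_mul_cancel₀ h3, one_smul]
  rw [evB β hσ, hd, pt]
  module

theorem mid_norm {A d : E 2} {l l' : ℝ} (h0 : 0 ≤ l') (h1 : l' ≤ l) (hl : 0 < l) (hA : ‖A‖ ≤ 1)
    (hq : ‖A - l • d‖ ≤ 1) : ‖A - l' • d‖ ≤ 1 := by
  have h2 := mem_seg (y := A) (e := -d) h0 h1 hl
  rw [smul_neg, smul_neg, ← sub_eq_add_neg, ← sub_eq_add_neg] at h2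
  exact mem_closedBall_zero_iff.1 ((convex_closedBall (0 : E 2) 1).segment_subset
    (mem_closedBall_zero_iff.2 hA) (mem_closedBall_zero_iff.2 hq) h2)

theorem mid_dist {A d : E 2} {l l' : ℝ} (h1 : l' ≤ l) (hd : ‖d‖ = 1) :
    dist (A - l • d) (A - l' • d) = l - l' := by
  rw [dist_eq_norm, show A - l • d - (A - l' • d) = -((l - l') • d) by module, norm_neg, norm_smul,
    hd, mul_one, Real.norm_of_nonneg (by linarith)]

theorem nm (x y : E 2) : NullMeasurableSet (segment ℝ x y) (μH[1] : Measure (E 2)) :=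
  (cseg x y).isClosed.measurableSet.nullMeasurableSet

theorem s3d : √3 * √3 = 3 := PU.s3

end Ga74

open NH Ga74

/-- the trivial gadget -/
theorem ks_G0 : KS_G0 := by
  intro S v β σ hv hn
  refine ⟨{v}, {v}, ?_⟩
  refine ⟨isCompact_singleton, isPreconnected_singleton, rfl, singleton_subset_iff.2 hv,
    singleton_subset_iff.2 (mem_closedBall_zero_iff.2 hn), ⟨v, Finset.mem_singleton_self v⟩, ?_,
    ?_, ?_, ?_, ?_, ?_⟩
  · intro z hz
    exact Finset.mem_singleton.1 hz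
  · intro z hz
    rw [mem_singleton_iff.1 hz, sub_self, inner_zero_left]
  · rw [ENNReal.ofReal_zero]
    exact zero_le
  · intro z hz _ h
    exact absurd (mem_singleton_iff.1 hz) h
  · intro h
    exact absurd (Finset.mem_singleton_self v) h
  · intro l hl hq
    have hl0 : 0 ≤ l := by
      rw [mul_zero] at hl
      exact hl
    refine ⟨segment ℝ (v + (0 : ℝ) • ev β - l • ev (β - σ * (π / 6))) v, cseg _ _, pseg _ _,
      left_mem_segment ℝ _ _, ?_, ?_, ?_⟩
    · intro z hz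
      rw [Finset.mem_singleton.1 hz]
      exact right_mem_segment ℝ _ _
    · exact (convex_closedBall (0 : E 2) 1).segment_subset (mem_closedBall_zero_iff.2 hq)
        (mem_closedBall_zero_iff.2 hn)
    · rw [hausdorffMeasure_segment, edist_dist, zero_smul, add_zero, dist_eq_norm,
        sub_sub_cancel_left, norm_neg, norm_smul, norm_ev, mul_one, Real.norm_of_nonneg hl0]

/-- the row GA -/
theorem ks_GA : KS_GA := by
  classical
  intro S v β σ x y hσ hxy hT hR hL hq1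
  have hx := hR.pos
  have hy := hL.pos
  have h3 := s3d
  have h3p : 0 < √3 := by positivity
  have h30 : √3 ≠ 0 := h3p.ne'
  have hpm := pm β hσ
  have cR : v + x • ev (β - σ * (π / 3)) =
      Ga74.pt (ev (β + σ * (π / 3))) (ev (β - σ * (π / 3))) v 0 x := by
    rw [Ga74.pt]
    module
  have cL : v + y • ev (β + σ * (π / 3)) =
      Ga74.pt (ev (β + σ * (π / 3))) (ev (β - σ * (π / 3))) v y 0 := by
    rw [Ga74.pt]
    module
  have k1 : ∀ z ∈ segment ℝ v (v + x • ev (β - σ * (π / 3))), ∃ s, 0 ≤ s ∧ s ≤ x ∧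
      z = Ga74.pt (ev (β + σ * (π / 3))) (ev (β - σ * (π / 3))) v 0 s := by
    intro z hz
    obtain ⟨s, s0, s1, rfl⟩ := TreeG.seg hx.le hz
    refine ⟨s, s0, s1, ?_⟩
    rw [Ga74.pt]
    module
  have k2 : ∀ z ∈ segment ℝ v (v + y • ev (β + σ * (π / 3))), ∃ s, 0 ≤ s ∧ s ≤ y ∧
      z = Ga74.pt (ev (β + σ * (π / 3))) (ev (β - σ * (π / 3))) v s 0 := by
    intro z hz
    obtain ⟨s, s0, s1, rfl⟩ := TreeG.seg hy.le hz
    refine ⟨s, s0, s1, ?_⟩
    rw [Ga74.pt]
    module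
  have hint : segment ℝ v (v + x • ev (β - σ * (π / 3))) ∩
      segment ℝ v (v + y • ev (β + σ * (π / 3))) ⊆ {v} := by
    rintro z ⟨z1, z2⟩
    obtain ⟨s, s0, s1, hs⟩ := k1 z z1
    obtain ⟨t, t0, t1, ht⟩ := k2 z z2
    obtain ⟨-, e2⟩ := hpm.inj (hs.symm.trans ht)
    rw [hs, e2, Ga74.pt]
    simp
  refine ⟨segment ℝ v (v + x • ev (β - σ * (π / 3))) ∪
    segment ℝ v (v + y • ev (β + σ * (π / 3))),
    {v + x • ev (β - σ * (π / 3)), v + y • ev (β + σ * (π / 3))}, ?_⟩
  refine ⟨(cseg _ _).union (cseg _ _), ?_, Or.inl (left_mem_segment ℝ _ _), ?_, ?_,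
    ⟨_, Finset.mem_insert_self _ _⟩, ?_, ?_, ?_, ?_, ?_, ?_⟩
  · exact IsPreconnected.union v (left_mem_segment ℝ _ _) (left_mem_segment ℝ _ _) (pseg _ _)
      (pseg _ _)
  · exact union_subset (Edge.subS hR) (Edge.subS hL)
  · exact union_subset (Edge.subB hR) (Edge.subB hL)
  · intro z hz
    rw [Finset.mem_insert, Finset.mem_singleton] at hz
    rcases hz with rfl | rfl
    · exact Or.inl (right_mem_segment ℝ _ _)
    · exact Or.inr (right_mem_segment ℝ _ _)
  · rintro z (hz | hz)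
    · obtain ⟨s, s0, s1, rfl⟩ := k1 z hz
      rw [PM.half hσ]
      linarith
    · obtain ⟨s, s0, s1, rfl⟩ := k2 z hz
      rw [PM.half hσ]
      linarith
  · rw [measure_union₀ (nm _ _) (TreeG.aed hint), TreeG.seglen hx.le (norm_ev _),
      TreeG.seglen hy.le (norm_ev _), ENNReal.ofReal_add hx.le hy.le]
  · rintro z (hz | hz) hV hv
    · obtain ⟨ε, ε0, h⟩ := Edge.loc hR hz hv fun h => hV (by
        rw [h]
        exact Finset.mem_insert_self _ _)
      exact ⟨ε, ε0, h.trans subset_union_left⟩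
    · obtain ⟨ε, ε0, h⟩ := Edge.loc hL hz hv fun h => hV (by
        rw [h]
        exact Finset.mem_insert_of_mem (Finset.mem_singleton_self _))
      exact ⟨ε, ε0, h.trans subset_union_right⟩
  · intro _
    obtain ⟨δ, δ0, h⟩ := TriB.loc hσ hT hx hy
    refine ⟨δ, δ0, fun z hz => ?_⟩
    rcases h z hz with h | h | h
    · exact Or.inl (Or.inl h)
    · exact Or.inl (Or.inr h)
    · exact Or.inr h
  · intro l hl hq
    have hl' : 2 * (x + y) ≤ l * √3 := by
      have : 2 / √3 * (x + y) * √3 = 2 * (x + y) := by field_simp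
      nlinarith
    have hl0 : 0 < l := by
      by_contra hc
      nlinarith [mul_nonneg h3p.le (neg_nonneg.2 (not_lt.1 hc))]
    have i0 : 0 ≤ (2 * y + x) / √3 := by positivity
    have i1 : (2 * y + x) / √3 ≤ l := by
      rw [div_le_iff₀ h3p]
      linarith
    have hvn := mid_norm i0 i1 hl0 hq1 hq
    have hqd := mid_dist (A := v + (x + y) • ev β) (d := ev (β - σ * (π / 6))) i1 (norm_ev _)
    have hv' : v + (x + y) • ev β - ((2 * y + x) / √3) • ev (β - σ * (π / 6)) =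
        Ga74.pt (ev (β + σ * (π / 3))) (ev (β - σ * (π / 3))) v ((2 * x + y) / 3)
          ((x - y) / 3) := by
      rw [qpt hσ]
      congr 1
      · rw [div_div, h3]
        ring
      · rw [mul_div_assoc, div_div, h3]
        ring
    have d1 : dist (v + (x + y) • ev β - ((2 * y + x) / √3) • ev (β - σ * (π / 6)))
        (v + x • ev (β - σ * (π / 3))) = (2 * x + y) / √3 := by
      rw [hv', cR]
      refine hpm.dst (by positivity) ?_
      rw [div_pow, sq √3, h3]
      ring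
    have d2 : dist (v + (x + y) • ev β - ((2 * y + x) / √3) • ev (β - σ * (π / 6)))
        (v + y • ev (β + σ * (π / 3))) = (y - x) / √3 := by
      rw [hv', cL]
      refine hpm.dst (div_nonneg (by linarith) h3p.le) ?_
      rw [div_pow, sq √3, h3]
      ring
    obtain ⟨f1, f2, f3, f4⟩ := star hq hvn (Edge.endB hR) (Edge.endB hL) (l := l) (by
      rw [hqd, d1, d2]
      have : l - (2 * y + x) / √3 + (2 * x + y) / √3 + (y - x) / √3 = l := by ring
      exact this.le)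
    refine ⟨_, f1, f2, ?_, ?_, f3, f4⟩
    · exact Or.inl (Or.inl (left_mem_segment ℝ _ _))
    · intro z hz
      rw [Finset.mem_insert, Finset.mem_singleton] at hz
      rcases hz with rfl | rfl
      · exact Or.inl (Or.inr (right_mem_segment ℝ _ _))
      · exact Or.inr (right_mem_segment ℝ _ _)

/-- the row GB -/
theorem ks_GB : KS_GB := by
  classical
  intro S v β σ x y z hσ hxz hT hR hL hTw hA hB hq1
  have hx := hR.pos
  have hy := hL.pos
  have hz := hA.pos
  have h3 := s3d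
  have h3p : 0 < √3 := by positivity
  have h30 : √3 ≠ 0 := h3p.ne'
  have hpm := pm β hσ
  have hQ := evQ β hσ
  have hBB := evB β hσ
  have cR : v + x • ev (β - σ * (π / 3)) =
      Ga74.pt (ev (β + σ * (π / 3))) (ev (β - σ * (π / 3))) v 0 x := by
    rw [Ga74.pt]
    module
  have cA : v + y • ev (β + σ * (π / 3)) + z • ev (β + σ * (2 * π / 3)) =
      Ga74.pt (ev (β + σ * (π / 3))) (ev (β - σ * (π / 3))) v y (-z) := by
    rw [Ga74.pt, hQ]
    module
  have cB : v + y • ev (β + σ * (π / 3)) + z • ev β =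
      Ga74.pt (ev (β + σ * (π / 3))) (ev (β - σ * (π / 3))) v (y + z) z := by
    rw [Ga74.pt, hBB]
    module
  have cw : v + y • ev (β + σ * (π / 3)) =
      Ga74.pt (ev (β + σ * (π / 3))) (ev (β - σ * (π / 3))) v y 0 := by
    rw [Ga74.pt]
    module
  have k1 : ∀ p ∈ segment ℝ v (v + x • ev (β - σ * (π / 3))), ∃ s, 0 ≤ s ∧ s ≤ x ∧
      p = Ga74.pt (ev (β + σ * (π / 3))) (ev (β - σ * (π / 3))) v 0 s := by
    intro p hp
    obtain ⟨s, s0, s1, rfl⟩ := TreeG.seg hx.le hp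
    refine ⟨s, s0, s1, ?_⟩
    rw [Ga74.pt]
    module
  have k2 : ∀ p ∈ segment ℝ v (v + y • ev (β + σ * (π / 3))), ∃ s, 0 ≤ s ∧ s ≤ y ∧
      p = Ga74.pt (ev (β + σ * (π / 3))) (ev (β - σ * (π / 3))) v s 0 := by
    intro p hp
    obtain ⟨s, s0, s1, rfl⟩ := TreeG.seg hy.le hp
    refine ⟨s, s0, s1, ?_⟩
    rw [Ga74.pt]
    module
  have k3 : ∀ p ∈ segment ℝ (v + y • ev (β + σ * (π / 3)))
      (v + y • ev (β + σ * (π / 3)) + z • ev (β + σ * (2 * π / 3))), ∃ s, 0 ≤ s ∧ s ≤ z ∧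
      p = Ga74.pt (ev (β + σ * (π / 3))) (ev (β - σ * (π / 3))) v y (-s) := by
    intro p hp
    obtain ⟨s, s0, s1, rfl⟩ := TreeG.seg hz.le hp
    refine ⟨s, s0, s1, ?_⟩
    rw [Ga74.pt, hQ]
    module
  have k4 : ∀ p ∈ segment ℝ (v + y • ev (β + σ * (π / 3)))
      (v + y • ev (β + σ * (π / 3)) + z • ev β), ∃ s, 0 ≤ s ∧ s ≤ z ∧
      p = Ga74.pt (ev (β + σ * (π / 3))) (ev (β - σ * (π / 3))) v (y + s) s := by
    intro p hp
    obtain ⟨s, s0, s1, rfl⟩ := TreeG.seg hz.le hp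
    refine ⟨s, s0, s1, ?_⟩
    rw [Ga74.pt, hBB]
    module
  have i12 : segment ℝ v (v + x • ev (β - σ * (π / 3))) ∩
      segment ℝ v (v + y • ev (β + σ * (π / 3))) ⊆ {v} := by
    rintro p ⟨z1, z2⟩
    obtain ⟨s, s0, s1, hs⟩ := k1 p z1
    obtain ⟨t, t0, t1, ht⟩ := k2 p z2
    obtain ⟨-, e2⟩ := hpm.inj (hs.symm.trans ht)
    rw [hs, e2, Ga74.pt]
    simp
  have i34 : segment ℝ (v + y • ev (β + σ * (π / 3)))
      (v + y • ev (β + σ * (π / 3)) + z • ev (β + σ * (2 * π / 3))) ∩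
      segment ℝ (v + y • ev (β + σ * (π / 3))) (v + y • ev (β + σ * (π / 3)) + z • ev β) ⊆
      {v + y • ev (β + σ * (π / 3))} := by
    rintro p ⟨z1, z2⟩
    obtain ⟨s, s0, s1, hs⟩ := k3 p z1
    obtain ⟨t, t0, t1, ht⟩ := k4 p z2
    obtain ⟨e1, e2⟩ := hpm.inj (hs.symm.trans ht)
    have e3 : t = 0 := by linarith
    rw [mem_singleton_iff, ht, e3, cw, add_zero]
  have i24 : (segment ℝ v (v + x • ev (β - σ * (π / 3))) ∪
      segment ℝ v (v + y • ev (β + σ * (π / 3)))) ∩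
      (segment ℝ (v + y • ev (β + σ * (π / 3)))
      (v + y • ev (β + σ * (π / 3)) + z • ev (β + σ * (2 * π / 3))) ∪
      segment ℝ (v + y • ev (β + σ * (π / 3))) (v + y • ev (β + σ * (π / 3)) + z • ev β)) ⊆
      {v + y • ev (β + σ * (π / 3))} := by
    rintro p ⟨z1 | z1, z2 | z2⟩
    · obtain ⟨s, s0, s1, hs⟩ := k1 p z1
      obtain ⟨t, t0, t1, ht⟩ := k3 p z2
      obtain ⟨e1, e2⟩ := hpm.inj (hs.symm.trans ht)
      exact absurd e1 hy.ne
    · obtain ⟨s, s0, s1, hs⟩ := k1 p z1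
      obtain ⟨t, t0, t1, ht⟩ := k4 p z2
      obtain ⟨e1, e2⟩ := hpm.inj (hs.symm.trans ht)
      exact absurd e1 (by linarith)
    · obtain ⟨s, s0, s1, hs⟩ := k2 p z1
      obtain ⟨t, t0, t1, ht⟩ := k3 p z2
      obtain ⟨e1, e2⟩ := hpm.inj (hs.symm.trans ht)
      rw [mem_singleton_iff, hs, e1, cw]
    · obtain ⟨s, s0, s1, hs⟩ := k2 p z1
      obtain ⟨t, t0, t1, ht⟩ := k4 p z2
      obtain ⟨e1, e2⟩ := hpm.inj (hs.symm.trans ht)
      rw [mem_singleton_iff, ht, ← e2, cw, add_zero]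
  refine ⟨(segment ℝ v (v + x • ev (β - σ * (π / 3))) ∪
      segment ℝ v (v + y • ev (β + σ * (π / 3)))) ∪
      (segment ℝ (v + y • ev (β + σ * (π / 3)))
      (v + y • ev (β + σ * (π / 3)) + z • ev (β + σ * (2 * π / 3))) ∪
      segment ℝ (v + y • ev (β + σ * (π / 3))) (v + y • ev (β + σ * (π / 3)) + z • ev β)),
    {v + x • ev (β - σ * (π / 3)),
      v + y • ev (β + σ * (π / 3)) + z • ev (β + σ * (2 * π / 3)),
      v + y • ev (β + σ * (π / 3)) + z • ev β}, ?_⟩
  have mV : ∀ p : E 2, p ∈ ({v + x • ev (β - σ * (π / 3)),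
      v + y • ev (β + σ * (π / 3)) + z • ev (β + σ * (2 * π / 3)),
      v + y • ev (β + σ * (π / 3)) + z • ev β} : Finset (E 2)) ↔
      p = v + x • ev (β - σ * (π / 3)) ∨
      p = v + y • ev (β + σ * (π / 3)) + z • ev (β + σ * (2 * π / 3)) ∨
      p = v + y • ev (β + σ * (π / 3)) + z • ev β := by
    intro p
    rw [Finset.mem_insert, Finset.mem_insert, Finset.mem_singleton]
  have locw : ∃ ε > 0, S ∩ Metric.ball (v + y • ev (β + σ * (π / 3))) ε ⊆
      (segment ℝ v (v + x • ev (β - σ * (π / 3))) ∪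
      segment ℝ v (v + y • ev (β + σ * (π / 3)))) ∪
      (segment ℝ (v + y • ev (β + σ * (π / 3)))
      (v + y • ev (β + σ * (π / 3)) + z • ev (β + σ * (2 * π / 3))) ∪
      segment ℝ (v + y • ev (β + σ * (π / 3))) (v + y • ev (β + σ * (π / 3)) + z • ev β)) := by
    obtain ⟨δ, δ0, h⟩ := TriB.loc hσ hTw hz hz
    refine ⟨min δ y, lt_min δ0 hy, ?_⟩
    rintro p ⟨pS, pb⟩
    have h1 := h p ⟨pS, ball_subset_ball (min_le_left _ _) pb⟩
    rw [show β + σ * (π / 3) - σ * (π / 3) = β by ring,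
      show β + σ * (π / 3) + σ * (π / 3) = β + σ * (2 * π / 3) by ring] at h1
    rcases h1 with h1 | h1 | ⟨s, s0, s1, h1⟩
    · exact Or.inr (Or.inr h1)
    · exact Or.inr (Or.inl h1)
    · refine Or.inl (Or.inr ?_)
      rw [h1, mem_ball, dist_eq_norm, sub_sub_cancel_left, norm_neg, norm_smul, norm_ev, mul_one,
        Real.norm_of_nonneg s0, lt_min_iff] at pb
      have h2 := mem_seg (y := v) (e := ev (β + σ * (π / 3))) (s := y - s) (c := y)
        (by linarith [pb.2]) (by linarith) hy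
      rw [sub_smul, ← add_sub_assoc] at h2
      rw [h1]
      exact h2
  refine ⟨((cseg _ _).union (cseg _ _)).union ((cseg _ _).union (cseg _ _)), ?_,
    Or.inl (Or.inl (left_mem_segment ℝ _ _)), ?_, ?_, ⟨_, Finset.mem_insert_self _ _⟩, ?_, ?_, ?_,
    ?_, ?_, ?_⟩
  · refine IsPreconnected.union (v + y • ev (β + σ * (π / 3))) (Or.inr (right_mem_segment ℝ _ _))
      (Or.inl (left_mem_segment ℝ _ _)) ?_ ?_
    · exact IsPreconnected.union v (left_mem_segment ℝ _ _) (left_mem_segment ℝ _ _) (pseg _ _)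
        (pseg _ _)
    · exact IsPreconnected.union _ (left_mem_segment ℝ _ _) (left_mem_segment ℝ _ _) (pseg _ _)
        (pseg _ _)
  · exact union_subset (union_subset (Edge.subS hR) (Edge.subS hL))
      (union_subset (Edge.subS hA) (Edge.subS hB))
  · exact union_subset (union_subset (Edge.subB hR) (Edge.subB hL))
      (union_subset (Edge.subB hA) (Edge.subB hB))
  · intro p hp
    rcases (mV p).1 hp with rfl | rfl | rfl
    · exact Or.inl (Or.inl (right_mem_segment ℝ _ _))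
    · exact Or.inr (Or.inl (right_mem_segment ℝ _ _))
    · exact Or.inr (Or.inr (right_mem_segment ℝ _ _))
  · rintro p ((hp | hp) | (hp | hp))
    · obtain ⟨s, s0, s1, rfl⟩ := k1 p hp
      rw [PM.half hσ]
      linarith
    · obtain ⟨s, s0, s1, rfl⟩ := k2 p hp
      rw [PM.half hσ]
      linarith
    · obtain ⟨s, s0, s1, rfl⟩ := k3 p hp
      rw [PM.half hσ]
      linarith
    · obtain ⟨s, s0, s1, rfl⟩ := k4 p hp
      rw [PM.half hσ]
      linarith
  · rw [measure_union₀ ((nm _ _).union (nm _ _)) (TreeG.aed i24),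
      measure_union₀ (nm _ _) (TreeG.aed i12), measure_union₀ (nm _ _) (TreeG.aed i34),
      TreeG.seglen hx.le (norm_ev _), TreeG.seglen hy.le (norm_ev _),
      TreeG.seglen hz.le (norm_ev _), TreeG.seglen hz.le (norm_ev _),
      ← ENNReal.ofReal_add hx.le hy.le, ← ENNReal.ofReal_add hz.le hz.le,
      ← ENNReal.ofReal_add (by linarith) (by linarith)]
    exact ENNReal.ofReal_le_ofReal (by linarith)
  · rintro p ((hp | hp) | (hp | hp)) hV hv
    · obtain ⟨ε, ε0, h⟩ := Edge.loc hR hp hv fun h => hV ((mV p).2 (Or.inl h))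
      exact ⟨ε, ε0, h.trans (subset_union_left.trans subset_union_left)⟩
    · rcases eq_or_ne p (v + y • ev (β + σ * (π / 3))) with h | h
      · rw [h]
        exact locw
      · obtain ⟨ε, ε0, h⟩ := Edge.loc hL hp hv h
        exact ⟨ε, ε0, h.trans (subset_union_right.trans subset_union_left)⟩
    · rcases eq_or_ne p (v + y • ev (β + σ * (π / 3))) with h | h
      · rw [h]
        exact locw
      · obtain ⟨ε, ε0, h⟩ := Edge.loc hA hp h fun h => hV ((mV p).2 (Or.inr (Or.inl h)))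
        exact ⟨ε, ε0, h.trans (subset_union_left.trans subset_union_right)⟩
    · rcases eq_or_ne p (v + y • ev (β + σ * (π / 3))) with h | h
      · rw [h]
        exact locw
      · obtain ⟨ε, ε0, h⟩ := Edge.loc hB hp h fun h => hV ((mV p).2 (Or.inr (Or.inr h)))
        exact ⟨ε, ε0, h.trans (subset_union_right.trans subset_union_right)⟩
  · intro _
    obtain ⟨δ, δ0, h⟩ := TriB.loc hσ hT hx hy
    refine ⟨δ, δ0, fun p hp => ?_⟩
    rcases h p hp with h | h | h
    · exact Or.inl (Or.inl (Or.inl h))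
    · exact Or.inl (Or.inl (Or.inr h))
    · exact Or.inr h
  · intro l hl hq
    have hl' : 2 * (x + y + 2 * z) ≤ l * √3 := by
      have : 2 / √3 * (x + y + 2 * z) * √3 = 2 * (x + y + 2 * z) := by field_simp
      nlinarith
    have hl0 : 0 < l := by
      by_contra hc
      nlinarith [mul_nonneg h3p.le (neg_nonneg.2 (not_lt.1 hc))]
    have i0 : 0 ≤ (2 * (y + 2 * z) + x) / √3 := by positivity
    have i1 : (2 * (y + 2 * z) + x) / √3 ≤ l := by
      rw [div_le_iff₀ h3p]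
      linarith
    have hvn := mid_norm i0 i1 hl0 hq1 hq
    have hqd := mid_dist (A := v + (x + y + 2 * z) • ev β) (d := ev (β - σ * (π / 6))) i1
      (norm_ev _)
    have hv' : v + (x + y + 2 * z) • ev β -
        ((2 * (y + 2 * z) + x) / √3) • ev (β - σ * (π / 6)) =
        Ga74.pt (ev (β + σ * (π / 3))) (ev (β - σ * (π / 3))) v ((2 * x + (y + 2 * z)) / 3)
          ((x - (y + 2 * z)) / 3) := by
      rw [qpt hσ]
      congr 1
      · rw [div_div, h3]
        ring
      · rw [mul_div_assoc, div_div, h3]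
        ring
    have d1 : dist (v + (x + y + 2 * z) • ev β -
        ((2 * (y + 2 * z) + x) / √3) • ev (β - σ * (π / 6)))
        (v + x • ev (β - σ * (π / 3))) = (2 * x + (y + 2 * z)) / √3 := by
      rw [hv', cR]
      refine hpm.dst (by positivity) ?_
      rw [div_pow, sq √3, h3]
      ring
    have d2 : dist (v + (x + y + 2 * z) • ev β -
        ((2 * (y + 2 * z) + x) / √3) • ev (β - σ * (π / 6)))
        (v + y • ev (β + σ * (π / 3)) + z • ev (β + σ * (2 * π / 3))) = (y - x - z) / √3 := by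
      rw [hv', cA]
      refine hpm.dst (div_nonneg (by linarith) h3p.le) ?_
      rw [div_pow, sq √3, h3]
      ring
    have d3 : dist (v + y • ev (β + σ * (π / 3)) + z • ev (β + σ * (2 * π / 3)))
        (v + y • ev (β + σ * (π / 3)) + z • ev β) = √3 * z := by
      rw [cA, cB]
      refine hpm.dst (by positivity) ?_
      rw [mul_pow, sq √3, h3]
      ring
    obtain ⟨f1, f2, f3, f4⟩ := star hq hvn (Edge.endB hR) (Edge.endB hA)
      (l := l - √3 * z) (by
      rw [hqd, d1, d2]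
      have h6 : √3 * z = 3 * z / √3 := by
        rw [eq_div_iff h30]
        linear_combination z * h3
      rw [h6]
      have : l - (2 * (y + 2 * z) + x) / √3 + (2 * x + (y + 2 * z)) / √3 + (y - x - z) / √3 =
          l - 3 * z / √3 := by ring
      exact this.le)
    refine ⟨_, f1.union (cseg (v + y • ev (β + σ * (π / 3)) + z • ev (β + σ * (2 * π / 3)))
      (v + y • ev (β + σ * (π / 3)) + z • ev β)),
      IsPreconnected.union _ (Or.inr (right_mem_segment ℝ _ _)) (left_mem_segment ℝ _ _) f2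
        (pseg _ _), ?_, ?_, union_subset f3 ?_, ?_⟩
    · exact Or.inl (Or.inl (Or.inl (left_mem_segment ℝ _ _)))
    · intro p hp
      rcases (mV p).1 hp with rfl | rfl | rfl
      · exact Or.inl (Or.inl (Or.inr (right_mem_segment ℝ _ _)))
      · exact Or.inl (Or.inr (right_mem_segment ℝ _ _))
      · exact Or.inr (right_mem_segment ℝ _ _)
    · exact (convex_closedBall (0 : E 2) 1).segment_subset
        (mem_closedBall_zero_iff.2 (Edge.endB hA)) (mem_closedBall_zero_iff.2 (Edge.endB hB))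
    · refine (measure_union_le _ _).trans ?_
      rw [hausdorffMeasure_segment, edist_dist, d3]
      have h7 : 0 ≤ l - √3 * z := by
        have h8 : √3 * z * √3 = 3 * z := by linear_combination z * h3
        by_contra hc
        have h9 : l < √3 * z := by linarith
        have := mul_lt_mul_of_pos_right h9 h3p
        linarith
      calc _ ≤ ENNReal.ofReal (l - √3 * z) + ENNReal.ofReal (√3 * z) := by gcongr
        _ = ENNReal.ofReal l := by
          rw [← ENNReal.ofReal_add h7 (by positivity)]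
          congr 1
          ring

end KS
end H11ST
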